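import Pool.Agent.Y645.UG.Stm
import Pool.Agent.Y331.UL.Noe

set_option autoImplicit false

/-!
# UG-A: Noetherian induction, graded (adaptation of `Pool/Agent/Y331/UL/Noe.lean`)
-/

namespace Pool.Agent.Y363.UG

open MvPolynomial Module
open Pool.Agent.Y645.UL Pool.Agent.Y645.UG Pool.Agent.Y331.UL

theorem t_Ag : Pool.Agent.Y645.UL.S_GEN → Pool.Agent.Y645.UG.S_Ag := by
  intro hG k _ c hPP ι _ δ J hδ
  induction J using WellFoundedGT.induction with
  | ind J ih =>
    by_cases hJ : J.IsPrime
    · by_cases hX : ∃ j, (X j : MvPolynomial ι k) ∈ J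
      · obtain ⟨j, hj⟩ := hX
        refine ⟨∅, Set.finite_empty, fun q hq => absurd hq (Set.notMem_empty q), ?_⟩
        intro p hJp hp
        exact absurd (hJp hj) ((pt_prime hp).2 j)
      · push Not at hX
        obtain ⟨L, _, _, y, hy⟩ := hG k ι J hJ hX
        by_cases hd : (mrk y : ℤ) - (tdu k y : ℤ) ≤ δ
        · refine ⟨{J}, Set.finite_singleton J, ?_, ?_⟩
          · intro q hq
            rw [Set.mem_singleton_iff] at hq
            rw [hq]
            exact ⟨le_refl _, L, inferInstance, inferInstance, y, hy, hd⟩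
          · intro p hJp _
            exact ⟨J, Set.mem_singleton J, hJp⟩
        · push Not at hd
          obtain ⟨g, hg, H⟩ := hPP δ hδ ι L y (by omega)
          have hgJ : g ∉ J := fun h => hg ((hy g).mp h)
          have hlt : J < J ⊔ Ideal.span {g} := by
            refine lt_of_le_of_ne le_sup_left fun h => hgJ ?_
            rw [h]
            exact Ideal.mem_sup_right (Ideal.mem_span_singleton_self g)
          obtain ⟨Q, hQ, hQ1, hQ2⟩ := ih _ hlt
          refine ⟨Q, hQ, fun q hq => ⟨le_trans le_sup_left (hQ1 q hq).1, (hQ1 q hq).2⟩, ?_⟩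
          intro p hJp hp
          refine hQ2 p ?_ hp
          obtain ⟨L', _, _, x, hx, hxd⟩ := hp
          refine sup_le hJp ?_
          rw [Ideal.span_le, Set.singleton_subset_iff]
          refine (hx g).mpr (H L' x ?_ ?_)
          · intro f hf
            exact (hx f).mp (hJp ((hy f).mpr hf))
          · omega
    · rw [Ideal.not_isPrime_iff] at hJ
      rcases hJ with hJ | ⟨f, hf, g, hg, hfg⟩
      · refine ⟨∅, Set.finite_empty, fun q hq => absurd hq (Set.notMem_empty q), ?_⟩
        intro p hJp hp
        rw [hJ, top_le_iff] at hJp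
        exact absurd hJp (pt_prime hp).1.ne_top
      · have key : ∀ h : MvPolynomial ι k, h ∉ J → J < J ⊔ Ideal.span {h} := by
          intro h hh
          refine lt_of_le_of_ne le_sup_left fun h' => hh ?_
          rw [h']
          exact Ideal.mem_sup_right (Ideal.mem_span_singleton_self h)
        obtain ⟨Q, hQ, hQ1, hQ2⟩ := ih _ (key f hf)
        obtain ⟨R, hR, hR1, hR2⟩ := ih _ (key g hg)
        refine ⟨Q ∪ R, hQ.union hR, ?_, ?_⟩
        · intro q hq
          rcases hq with hq | hq
          · exact ⟨le_trans le_sup_left (hQ1 q hq).1, (hQ1 q hq).2⟩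
          · exact ⟨le_trans le_sup_left (hR1 q hq).1, (hR1 q hq).2⟩
        · intro p hJp hp
          rcases (pt_prime hp).1.mem_or_mem (hJp hfg) with h | h
          · obtain ⟨q, hq, hqp⟩ := hQ2 p (sup_le hJp (by
              rw [Ideal.span_le, Set.singleton_subset_iff]
              exact h)) hp
            exact ⟨q, Or.inl hq, hqp⟩
          · obtain ⟨q, hq, hqp⟩ := hR2 p (sup_le hJp (by
              rw [Ideal.span_le, Set.singleton_subset_iff]
              exact h)) hp
            exact ⟨q, Or.inr hq, hqp⟩

end Pool.Agent.Y363.UG
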